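import Pool.Agent.N236.UR.Stm3

/-! Project UR (helper236), part 2, task REAL (helper78): real fixed points. -/

set_option autoImplicit false

namespace Pool.Agent.N78.UR

open Pool.Agent.N236.UR

theorem wd_lin' (A : Matrix (Fin 2) (Fin 2) ℝ) (x y : ℝ × ℝ) :
    wd (lin A x) (lin A y) = A.det * wd x y := by
  unfold wd lin
  rw [Matrix.det_fin_two]
  ring

theorem wd_smul (a b : ℝ) (x y : ℝ × ℝ) : wd (a • x) (b • y) = a * b * wd x y := by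
  unfold wd
  simp only [Prod.smul_fst, Prod.smul_snd, smul_eq_mul]
  ring

theorem wd_comm (x y : ℝ × ℝ) : wd x y = - wd y x := by
  unfold wd
  ring

theorem abs_wd_comm (x y : ℝ × ℝ) : |wd x y| = |wd y x| := by
  rw [wd_comm, abs_neg]

/-- the cross-ratio -/
noncomputable def CR (u₁ u₂ u₃ u₄ : ℝ × ℝ) : ℝ :=
  |wd u₁ u₄| * |wd u₂ u₃| / (|wd u₁ u₂| * |wd u₃ u₄|)

theorem CR_rev (u₁ u₂ u₃ u₄ : ℝ × ℝ) : CR u₄ u₃ u₂ u₁ = CR u₁ u₂ u₃ u₄ := by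
  unfold CR
  rw [abs_wd_comm u₄ u₁, abs_wd_comm u₃ u₂, abs_wd_comm u₄ u₃, abs_wd_comm u₂ u₁,
    mul_comm |wd u₃ u₄|]

theorem CR_lin {A : Matrix (Fin 2) (Fin 2) ℝ} (hA : A.det ≠ 0) (u₁ u₂ u₃ u₄ : ℝ × ℝ) :
    CR (lin A u₁) (lin A u₂) (lin A u₃) (lin A u₄) = CR u₁ u₂ u₃ u₄ := by
  unfold CR
  simp only [wd_lin', abs_mul]
  have h : |A.det| * |A.det| ≠ 0 := mul_ne_zero (abs_ne_zero.2 hA) (abs_ne_zero.2 hA)
  rw [show |A.det| * |wd u₁ u₄| * (|A.det| * |wd u₂ u₃|) =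
      (|A.det| * |A.det|) * (|wd u₁ u₄| * |wd u₂ u₃|) by ring,
    show |A.det| * |wd u₁ u₂| * (|A.det| * |wd u₃ u₄|) =
      (|A.det| * |A.det|) * (|wd u₁ u₂| * |wd u₃ u₄|) by ring, mul_div_mul_left _ _ h]

theorem CR_smul {a₁ a₂ a₃ a₄ : ℝ} (h₁ : a₁ ≠ 0) (h₂ : a₂ ≠ 0) (h₃ : a₃ ≠ 0) (h₄ : a₄ ≠ 0)
    (u₁ u₂ u₃ u₄ : ℝ × ℝ) :
    CR (a₁ • u₁) (a₂ • u₂) (a₃ • u₃) (a₄ • u₄) = CR u₁ u₂ u₃ u₄ := by
  unfold CR
  simp only [wd_smul, abs_mul]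
  have h : |a₁| * |a₂| * |a₃| * |a₄| ≠ 0 := by
    have := abs_ne_zero.2 h₁
    have := abs_ne_zero.2 h₂
    have := abs_ne_zero.2 h₃
    have := abs_ne_zero.2 h₄
    positivity
  rw [show |a₁| * |a₄| * |wd u₁ u₄| * (|a₂| * |a₃| * |wd u₂ u₃|) =
      (|a₁| * |a₂| * |a₃| * |a₄|) * (|wd u₁ u₄| * |wd u₂ u₃|) by ring,
    show |a₁| * |a₂| * |wd u₁ u₂| * (|a₃| * |a₄| * |wd u₃ u₄|) =
      (|a₁| * |a₂| * |a₃| * |a₄|) * (|wd u₁ u₂| * |wd u₃ u₄|) by ring, mul_div_mul_left _ _ h]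

theorem crp_pos (hCRP : S_CRP) {m : ℕ} {a b c d : ℝ} (hm : 2 ≤ m) (ha : 0 < a) (hab : a < b)
    (hbc : b < c) (hcd : c < d) :
    CR (a, 1) (b, 1) (c, 1) (d, 1) < CR (a ^ m, 1) (b ^ m, 1) (c ^ m, 1) (d ^ m, 1) := by
  have h := hCRP m a b c d hm ha hab hbc hcd
  have hm0 : m ≠ 0 := by omega
  have p1 : a ^ m < b ^ m := pow_lt_pow_left₀ hab ha.le hm0
  have p2 : b ^ m < c ^ m := pow_lt_pow_left₀ hbc (by linarith) hm0
  have p3 : c ^ m < d ^ m := pow_lt_pow_left₀ hcd (by linarith) hm0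
  have key : ∀ {x y z w : ℝ}, x < y → y < z → z < w →
      CR (x, 1) (y, 1) (z, 1) (w, 1) = (w - x) * (z - y) / ((y - x) * (w - z)) := by
    intro x y z w h1 h2 h3
    unfold CR wd
    simp only [mul_one, one_mul]
    rw [abs_of_neg (by linarith : x - w < 0), abs_of_neg (by linarith : y - z < 0),
      abs_of_neg (by linarith : x - y < 0), abs_of_neg (by linarith : z - w < 0)]
    ring_nf
  rw [key hab hbc hcd, key p1 p2 p3, div_lt_div_iff₀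
    (mul_pos (by linarith) (by linarith)) (mul_pos (by linarith) (by linarith))]
  linarith

/-- four positive or negative monotone numbers -/
theorem crp_mono (hCRP : S_CRP) {m : ℕ} {t₁ t₂ t₃ t₄ : ℝ} (hm : 2 ≤ m)
    (hs : (0 < t₁ ∧ 0 < t₂ ∧ 0 < t₃ ∧ 0 < t₄) ∨ (t₁ < 0 ∧ t₂ < 0 ∧ t₃ < 0 ∧ t₄ < 0))
    (ht : (t₁ < t₂ ∧ t₂ < t₃ ∧ t₃ < t₄) ∨ (t₂ < t₁ ∧ t₃ < t₂ ∧ t₄ < t₃)) :
    CR (t₁, 1) (t₂, 1) (t₃, 1) (t₄, 1) < CR (t₁ ^ m, 1) (t₂ ^ m, 1) (t₃ ^ m, 1) (t₄ ^ m, 1) := by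
  -- positive numbers
  have hpos : ∀ {t₁ t₂ t₃ t₄ : ℝ}, (0 < t₁ ∧ 0 < t₂ ∧ 0 < t₃ ∧ 0 < t₄) →
      ((t₁ < t₂ ∧ t₂ < t₃ ∧ t₃ < t₄) ∨ (t₂ < t₁ ∧ t₃ < t₂ ∧ t₄ < t₃)) →
      CR (t₁, 1) (t₂, 1) (t₃, 1) (t₄, 1) < CR (t₁ ^ m, 1) (t₂ ^ m, 1) (t₃ ^ m, 1) (t₄ ^ m, 1) := by
    rintro t₁ t₂ t₃ t₄ ⟨h1, h2, h3, h4⟩ (⟨g1, g2, g3⟩ | ⟨g1, g2, g3⟩)
    · exact crp_pos hCRP hm h1 g1 g2 g3
    · have := crp_pos hCRP hm h4 g3 g2 g1
      rw [← CR_rev (t₁, 1), ← CR_rev (t₁ ^ m, 1)]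
      exact this
  rcases hs with hs | ⟨h1, h2, h3, h4⟩
  · exact hpos hs ht
  · have h := @hpos (-t₁) (-t₂) (-t₃) (-t₄) ⟨by linarith, by linarith, by linarith, by linarith⟩ (by
      rcases ht with ⟨g1, g2, g3⟩ | ⟨g1, g2, g3⟩
      · right
        exact ⟨by linarith, by linarith, by linarith⟩
      · left
        exact ⟨by linarith, by linarith, by linarith⟩)
    have e : ∀ (ε x : ℝ), ((ε * x, 1) : ℝ × ℝ) = lin (!![ε, 0; 0, 1]) (x, 1) := by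
      intro ε x
      unfold lin
      simp
    have hd : ∀ ε : ℝ, ε ≠ 0 → (!![ε, 0; 0, 1] : Matrix (Fin 2) (Fin 2) ℝ).det ≠ 0 := by
      intro ε hε
      rw [Matrix.det_fin_two]
      simpa using hε
    have e1 : ∀ x : ℝ, ((-x, 1) : ℝ × ℝ) = lin (!![(-1 : ℝ), 0; 0, 1]) (x, 1) := by
      intro x
      rw [← e, neg_one_mul]
    have e2 : ∀ x : ℝ, (((-x) ^ m, 1) : ℝ × ℝ) = lin (!![((-1 : ℝ) ^ m), 0; 0, 1]) (x ^ m, 1) := by
      intro x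
      rw [← e, ← mul_pow, neg_one_mul]
    rw [e1 t₁, e1 t₂, e1 t₃, e1 t₄, e2 t₁, e2 t₂, e2 t₃, e2 t₄,
      CR_lin (hd _ (by norm_num)), CR_lin (hd _ (pow_ne_zero _ (by norm_num)))] at h
    exact h

/-- a step increases the cross-ratio -/
theorem step_lt (hCRP : S_CRP) {m : ℕ} (hm : 2 ≤ m) {x₁ x₂ x₃ x₄ : ℝ} (h₁₂ : x₁ < x₂)
    (h₂₃ : x₂ < x₃) (h₃₄ : x₃ < x₄) (g : ℝ → ℝ × ℝ) (hg : ContinuousOn g (Set.Icc x₁ x₄))
    (hw : ∀ x ∈ Set.Icc x₁ x₄, ∀ y ∈ Set.Icc x₁ x₄, x ≠ y → wd (g x) (g y) ≠ 0)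
    (h0 : ∀ x ∈ Set.Icc x₁ x₄, (g x).1 ≠ 0 ∧ (g x).2 ≠ 0) :
    CR (g x₁) (g x₂) (g x₃) (g x₄) <
      CR (pw m (g x₁)) (pw m (g x₂)) (pw m (g x₃)) (pw m (g x₄)) := by
  set t : ℝ → ℝ := fun x => (g x).1 / (g x).2 with ht
  have hgt : ∀ x ∈ Set.Icc x₁ x₄, g x = (g x).2 • (t x, (1 : ℝ)) := by
    intro x hx
    have := (h0 x hx).2
    ext
    · simp [ht, mul_div_cancel₀ _ this]
    · simp
  have hpt : ∀ x ∈ Set.Icc x₁ x₄, pw m (g x) = (g x).2 ^ m • (t x ^ m, (1 : ℝ)) := by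
    intro x hx
    have := (h0 x hx).2
    unfold pw
    ext
    · simp only [ht, div_pow, Prod.smul_mk, smul_eq_mul]
      rw [mul_div_cancel₀ _ (pow_ne_zero _ this)]
    · simp
  have hc : ContinuousOn t (Set.Icc x₁ x₄) :=
    (continuous_fst.comp_continuousOn hg).div (continuous_snd.comp_continuousOn hg)
      fun x hx => (h0 x hx).2
  have hinj : Set.InjOn t (Set.Icc x₁ x₄) := by
    intro x hx y hy hxy
    by_contra hne
    apply hw x hx y hy hne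
    have h1 := (h0 x hx).2
    have h2 := (h0 y hy).2
    have h3 : (g x).1 / (g x).2 = (g y).1 / (g y).2 := hxy
    rw [div_eq_div_iff h1 h2] at h3
    unfold wd
    linarith
  have hm1 : x₁ ∈ Set.Icc x₁ x₄ := ⟨le_rfl, by linarith⟩
  have hm2 : x₂ ∈ Set.Icc x₁ x₄ := ⟨by linarith, by linarith⟩
  have hm3 : x₃ ∈ Set.Icc x₁ x₄ := ⟨by linarith, by linarith⟩
  have hm4 : x₄ ∈ Set.Icc x₁ x₄ := ⟨by linarith, le_rfl⟩
  have ht0 : ∀ x ∈ Set.Icc x₁ x₄, t x ≠ 0 := fun x hx => div_ne_zero (h0 x hx).1 (h0 x hx).2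
  -- constant sign
  have hsign : (∀ x ∈ Set.Icc x₁ x₄, 0 < t x) ∨ (∀ x ∈ Set.Icc x₁ x₄, t x < 0) := by
    by_contra hcon
    push Not at hcon
    obtain ⟨⟨x, hx, hx'⟩, ⟨y, hy, hy'⟩⟩ := hcon
    have hpre : IsPreconnected (Set.Icc x₁ x₄) := isPreconnected_Icc
    have h0m : (0 : ℝ) ∈ t '' Set.Icc x₁ x₄ := by
      have := (hpre.image t hc).ordConnected
      exact this.out ⟨x, hx, rfl⟩ ⟨y, hy, rfl⟩ ⟨hx', hy'⟩
    obtain ⟨z, hz, hz'⟩ := h0m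
    exact ht0 z hz hz'
  rw [hgt x₁ hm1, hgt x₂ hm2, hgt x₃ hm3, hgt x₄ hm4]
  rw [CR_smul (h0 x₁ hm1).2 (h0 x₂ hm2).2 (h0 x₃ hm3).2 (h0 x₄ hm4).2,
    ← hgt x₁ hm1, ← hgt x₂ hm2, ← hgt x₃ hm3, ← hgt x₄ hm4,
    hpt x₁ hm1, hpt x₂ hm2, hpt x₃ hm3, hpt x₄ hm4,
    CR_smul (pow_ne_zero _ (h0 x₁ hm1).2) (pow_ne_zero _ (h0 x₂ hm2).2)
      (pow_ne_zero _ (h0 x₃ hm3).2) (pow_ne_zero _ (h0 x₄ hm4).2)]
  refine crp_mono hCRP hm ?_ ?_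
  · rcases hsign with h | h
    · exact Or.inl ⟨h _ hm1, h _ hm2, h _ hm3, h _ hm4⟩
    · exact Or.inr ⟨h _ hm1, h _ hm2, h _ hm3, h _ hm4⟩
  · rcases hc.strictMonoOn_of_injOn_Icc' (by linarith) hinj with h | h
    · exact Or.inl ⟨h hm1 hm2 h₁₂, h hm2 hm3 h₂₃, h hm3 hm4 h₃₄⟩
    · exact Or.inr ⟨h hm1 hm2 h₁₂, h hm2 hm3 h₂₃, h hm3 hm4 h₃₄⟩

/-- no critical points in `I` -/
def NoCrit : List (Matrix (Fin 2) (Fin 2) ℝ × ℕ) → (ℝ → ℝ × ℝ) → Set ℝ → Prop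
  | [], _, _ => True
  | s :: t, f, I => (∀ x ∈ I, (lin s.1 (f x)).1 ≠ 0 ∧ (lin s.1 (f x)).2 ≠ 0) ∧
      NoCrit t (fun x => pw s.2 (lin s.1 (f x))) I

theorem pw_wd {m : ℕ} (hm : Odd m) (x y : ℝ × ℝ) (h : wd x y ≠ 0) : wd (pw m x) (pw m y) ≠ 0 := by
  unfold wd pw at *
  intro h0
  apply h
  have h1 : (x.1 * y.2) ^ m = (x.2 * y.1) ^ m := by
    rw [mul_pow, mul_pow]
    linarith
  have := hm.strictMono_pow.injective h1
  linarith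

theorem run_le (hCRP : S_CRP) {x₁ x₂ x₃ x₄ : ℝ} (h₁₂ : x₁ < x₂)
    (h₂₃ : x₂ < x₃) (h₃₄ : x₃ < x₄) (st : List (Matrix (Fin 2) (Fin 2) ℝ × ℕ)) :
    ∀ (f : ℝ → ℝ × ℝ), (∀ s ∈ st, s.1.det ≠ 0 ∧ 2 ≤ s.2 ∧ Odd s.2) →
      ContinuousOn f (Set.Icc x₁ x₄) →
      (∀ x ∈ Set.Icc x₁ x₄, ∀ y ∈ Set.Icc x₁ x₄, x ≠ y → wd (f x) (f y) ≠ 0) →
      NoCrit st f (Set.Icc x₁ x₄) →
      CR (f x₁) (f x₂) (f x₃) (f x₄) ≤
        CR (run st (f x₁)) (run st (f x₂)) (run st (f x₃)) (run st (f x₄)) ∧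
      (st ≠ [] → CR (f x₁) (f x₂) (f x₃) (f x₄) <
        CR (run st (f x₁)) (run st (f x₂)) (run st (f x₃)) (run st (f x₄))) ∧
      (∀ x ∈ Set.Icc x₁ x₄, ∀ y ∈ Set.Icc x₁ x₄, x ≠ y →
        wd (run st (f x)) (run st (f y)) ≠ 0) := by
  induction st with
  | nil =>
    intro f _ _ hw _
    exact ⟨le_rfl, fun h => absurd rfl h, hw⟩
  | cons s t ih =>
    intro f hst hf hw hN
    obtain ⟨hs1, hs2, hs3⟩ := hst s (by simp)
    obtain ⟨hN1, hN2⟩ := hN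
    have hlc : Continuous (lin s.1 : ℝ × ℝ → ℝ × ℝ) := by
      unfold lin
      fun_prop
    have hpc : Continuous (pw s.2 : ℝ × ℝ → ℝ × ℝ) := by
      unfold pw
      fun_prop
    have hgc : ContinuousOn (fun x => lin s.1 (f x)) (Set.Icc x₁ x₄) := hlc.comp_continuousOn hf
    have hgw : ∀ x ∈ Set.Icc x₁ x₄, ∀ y ∈ Set.Icc x₁ x₄, x ≠ y →
        wd (lin s.1 (f x)) (lin s.1 (f y)) ≠ 0 := by
      intro x hx y hy hxy
      rw [wd_lin']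
      exact mul_ne_zero hs1 (hw x hx y hy hxy)
    have h1 := step_lt hCRP hs2 h₁₂ h₂₃ h₃₄ (fun x => lin s.1 (f x)) hgc hgw hN1
    simp only [CR_lin hs1] at h1
    obtain ⟨h2, -, h3⟩ := ih (fun x => pw s.2 (lin s.1 (f x)))
      (fun s' hs' => hst s' (by simp [hs'])) (hpc.comp_continuousOn hgc)
      (fun x hx y hy hxy => pw_wd hs3 _ _ (hgw x hx y hy hxy)) hN2
    have h4 := h1.trans_le h2
    exact ⟨h4.le, fun _ => h4, h3⟩

/-- the number of critical points -/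
theorem crit_card (st : List (Matrix (Fin 2) (Fin 2) ℝ × ℕ)) :
    ∀ (f : ℝ → ℝ × ℝ), (∀ s ∈ st, s.1.det ≠ 0 ∧ 2 ≤ s.2 ∧ Odd s.2) →
      (∀ x y : ℝ, x ≠ y → wd (f x) (f y) ≠ 0) →
      ∃ Z : Finset ℝ, Z.card ≤ 2 * st.length ∧ ∀ I : Set ℝ, (∀ z ∈ Z, z ∉ I) → NoCrit st f I := by
  classical
  induction st with
  | nil => intro f _ _; exact ⟨∅, by simp, fun I _ => trivial⟩
  | cons s t ih =>
    intro f hst hw
    obtain ⟨hs1, hs2, hs3⟩ := hst s (by simp)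
    have hgw : ∀ x y : ℝ, x ≠ y → wd (lin s.1 (f x)) (lin s.1 (f y)) ≠ 0 := by
      intro x y hxy
      rw [wd_lin']
      exact mul_ne_zero hs1 (hw x y hxy)
    obtain ⟨Z, hZ1, hZ2⟩ := ih (fun x => pw s.2 (lin s.1 (f x)))
      (fun s' hs' => hst s' (by simp [hs'])) (fun x y hxy => pw_wd hs3 _ _ (hgw x y hxy))
    have hone : ∀ P : ℝ → Prop, (∀ x y, P x → P y → x = y) →
        ∃ Z : Finset ℝ, Z.card ≤ 1 ∧ ∀ x, P x → x ∈ Z := by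
      intro P hP
      by_cases h : ∃ x, P x
      · obtain ⟨x, hx⟩ := h
        exact ⟨{x}, by simp, fun y hy => Finset.mem_singleton.2 (hP y x hy hx)⟩
      · exact ⟨∅, by simp, fun x hx => absurd ⟨x, hx⟩ h⟩
    obtain ⟨Z1, c1, hZ1'⟩ := hone (fun x => (lin s.1 (f x)).1 = 0) (fun x y hx hy => by
      by_contra hne
      apply hgw x y hne
      unfold wd
      rw [hx, hy]
      ring)
    obtain ⟨Z2, c2, hZ2'⟩ := hone (fun x => (lin s.1 (f x)).2 = 0) (fun x y hx hy => by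
      by_contra hne
      apply hgw x y hne
      unfold wd
      rw [hx, hy]
      ring)
    refine ⟨Z1 ∪ Z2 ∪ Z, ?_, fun I hI => ⟨fun x hx => ⟨fun h => ?_, fun h => ?_⟩, ?_⟩⟩
    · have a1 := Finset.card_union_le (Z1 ∪ Z2) Z
      have a2 := Finset.card_union_le Z1 Z2
      simp only [List.length_cons]
      omega
    · exact hI x (by simp [hZ1' x h]) hx
    · exact hI x (by simp [hZ2' x h]) hx
    · exact hZ2 I fun z hz => hI z (by simp [hz])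

theorem t_real : S_CRP → S_REAL := by
  classical
  intro hCRP st B hst hB hne S hS
  by_contra hcard
  push Not at hcard
  have hw0 : ∀ x y : ℝ, x ≠ y → wd ((x, 1) : ℝ × ℝ) (y, 1) ≠ 0 := by
    intro x y hxy
    unfold wd
    simp only [mul_one, one_mul]
    exact sub_ne_zero.2 hxy
  obtain ⟨Z, hZ1, hZ2⟩ := crit_card st (fun x => (x, 1)) hst hw0
  set k := st.length with hk
  -- pigeonhole
  set S' := S \ Z with hS'
  have hS'c : 6 * k + 4 ≤ S'.card := by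
    have := Finset.le_card_sdiff Z S
    rw [hS']
    omega
  have hmaps : ∀ x ∈ S', (Z.filter (fun z => z < x)).card ∈ Finset.range (2 * k + 1) := by
    intro x _
    rw [Finset.mem_range]
    have := Finset.card_filter_le Z (fun z => z < x)
    omega
  obtain ⟨v, -, hv⟩ := Finset.exists_lt_card_fiber_of_mul_lt_card_of_maps_to hmaps
    (n := 3) (by rw [Finset.card_range]; omega)
  obtain ⟨F, hF1, hF2⟩ := Finset.exists_subset_card_eq (s := S'.filter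
    (fun x => (Z.filter (fun z => z < x)).card = v)) (n := 4) (by omega)
  set x := F.orderEmbOfFin hF2 with hx
  have hxF : ∀ i, x i ∈ S' ∧ (Z.filter (fun z => z < x i)).card = v := by
    intro i
    have := hF1 (Finset.orderEmbOfFin_mem F hF2 i)
    rw [Finset.mem_filter] at this
    exact this
  have h01 : x 0 < x 1 := x.strictMono (by decide)
  have h12 : x 1 < x 2 := x.strictMono (by decide)
  have h23 : x 2 < x 3 := x.strictMono (by decide)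
  have hZI : ∀ z ∈ Z, z ∉ Set.Icc (x 0) (x 3) := by
    rintro z hz ⟨hz0, hz3⟩
    have n0 : x 0 ∉ Z := (Finset.mem_sdiff.1 (hxF 0).1).2
    have n3 : x 3 ∉ Z := (Finset.mem_sdiff.1 (hxF 3).1).2
    have g0 : x 0 ≠ z := fun h => n0 (h ▸ hz)
    have g3 : z ≠ x 3 := fun h => n3 (h ▸ hz)
    have l3 : z < x 3 := lt_of_le_of_ne hz3 g3
    have : (Z.filter (fun z => z < x 0)).card < (Z.filter (fun z => z < x 3)).card := by
      apply Finset.card_lt_card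
      rw [Finset.ssubset_iff_of_subset]
      · refine ⟨z, Finset.mem_filter.2 ⟨hz, l3⟩, fun h => ?_⟩
        have := (Finset.mem_filter.1 h).2
        linarith
      · intro w hw
        rw [Finset.mem_filter] at hw ⊢
        exact ⟨hw.1, by linarith [hw.2]⟩
    rw [(hxF 0).2, (hxF 3).2] at this
    exact lt_irrefl _ this
  have hc : ContinuousOn (fun x : ℝ => ((x, 1) : ℝ × ℝ)) (Set.Icc (x 0) (x 3)) := by fun_prop
  obtain ⟨-, h1, h2⟩ := run_le hCRP h01 h12 h23 st (fun x => (x, 1)) hst hc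
    (fun x _ y _ hxy => hw0 x y hxy) (hZ2 _ hZI)
  have h3 := h1 hne
  rw [← CR_lin hB (run st (x 0, 1)) (run st (x 1, 1)) (run st (x 2, 1)) (run st (x 3, 1))] at h3
  have m0 : x 0 ∈ Set.Icc (x 0) (x 3) := ⟨le_rfl, by linarith⟩
  have m1 : x 1 ∈ Set.Icc (x 0) (x 3) := ⟨by linarith, by linarith⟩
  have m2 : x 2 ∈ Set.Icc (x 0) (x 3) := ⟨by linarith, by linarith⟩
  have m3 : x 3 ∈ Set.Icc (x 0) (x 3) := ⟨by linarith, le_rfl⟩
  have hv : ∀ i, lin B (run st (x i, 1)) = (lin B (run st (x i, 1))).2 • ((x i, 1) : ℝ × ℝ) := by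
    intro i
    have hi : x i ∈ S := (Finset.mem_sdiff.1 (hxF i).1).1
    have h := hS (x i) hi
    unfold wd at h
    ext
    · simp only [Prod.smul_fst, smul_eq_mul]
      simp only [mul_one] at h
      linarith
    · simp
  have hv2 : ∀ y z, y ∈ Set.Icc (x 0) (x 3) → z ∈ Set.Icc (x 0) (x 3) → y ≠ z →
      (∃ i, y = x i) → (lin B (run st (y, 1))).2 ≠ 0 := by
    rintro y z hy hz hyz ⟨i, rfl⟩ h0
    have h4 := h2 _ hy _ hz hyz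
    have h5 : wd (lin B (run st (x i, 1))) (lin B (run st (z, 1))) ≠ 0 := by
      rw [wd_lin']
      exact mul_ne_zero hB h4
    apply h5
    rw [hv i, h0]
    unfold wd
    simp
  have w0 := hv2 (x 0) (x 1) m0 m1 h01.ne ⟨0, rfl⟩
  have w1 := hv2 (x 1) (x 2) m1 m2 h12.ne ⟨1, rfl⟩
  have w2 := hv2 (x 2) (x 3) m2 m3 h23.ne ⟨2, rfl⟩
  have w3 := hv2 (x 3) (x 2) m3 m2 h23.ne' ⟨3, rfl⟩
  have e : CR (lin B (run st (x 0, 1))) (lin B (run st (x 1, 1))) (lin B (run st (x 2, 1)))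
      (lin B (run st (x 3, 1))) = CR (x 0, 1) (x 1, 1) (x 2, 1) (x 3, 1) := by
    rw [hv 0, hv 1, hv 2, hv 3]
    exact CR_smul w0 w1 w2 w3 _ _ _ _
  rw [e] at h3
  exact lt_irrefl _ h3

end Pool.Agent.N78.UR
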